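import Pool.Agent.Q230.MR.Main

/-!
# Minimum rank of a variable matrix with a constant bound

For every fixed `r ≥ 2` the problem `MinRank_r` is complete for the existential theory of the reals.
-/

namespace Pool.Agent.Results.MP_51fc0b_lc.EveryBoundTwo

open Pool.Agent.NPC Pool.Agent.NPC.ER Pool.Agent.H606R2.MinRank Pool.Agent.NPC.Q230MR

/-- For every fixed constant `r ≥ 2`, given a variable matrix `M` it is `∃ℝ`-complete to decide
whether `rank M(a) ≤ r` for some real point `a`. -/
theorem result (r : ℕ) (hr : 2 ≤ r) :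
    ERComplete (lang (fun M : VarMatrix => ∃ a : ℕ → ℝ, (M.at a).rank ≤ r)) := by
  refine ⟨mem r, ?_⟩
  have h := hard (r - 2)
  rw [show 2 + (r - 2) = r by omega] at h
  exact h

end Pool.Agent.Results.MP_51fc0b_lc.EveryBoundTwo
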